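import Pool.Agent.H622R2.Exp.P3

/-!
# Hidden windows: many inputs and short witnesses
-/

set_option autoImplicit false

namespace Pool.Agent.TH771.BN

open Pool.Agent.NPC Pool.Agent.H620R2.Gauge Pool.Agent.H622R2.Exp Finset H568R2

section

variable {I : Type*} [Fintype I] [DecidableEq I]
variable {κ J : Type*} [Fintype κ] [DecidableEq κ] [Fintype J]

omit [DecidableEq κ] in
open Classical in
/-- all blocks are hit with small probability only -/
theorem all_hit {m : ℕ} (hm : 1 ≤ m) (hJ : Fintype.card J = 2 ^ m) (W : κ → J → Finset I)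
    (hW : ∀ k j, (W k j).card = m)
    (hd : ∀ k j k' j', (k, j) ≠ (k', j') → Disjoint (W k j) (W k' j')) :
    Ex unif (fun a : I → Bool => if ∀ k, HitF (W k) a then (1 : ℝ) else 0) ≤
      (3 / 4) ^ Fintype.card κ := by
  have h := prod_block (Finset.univ : Finset κ) (fun k => univ.biUnion (W k))
    (fun k a => (if HitF (W k) a then (1 : ℝ) else 0)) (fun _ => 3 / 4)
    (fun k _ a => by split_ifs <;> norm_num)
    (fun k _ k' _ hk a b => by simp only [P3.hit_mix W hd k k' hk])
    (fun k _ a => by
      simp only [P3.hit_mix_self W k]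
      exact (prob_hit hm hJ (W k) (hW k) (fun j j' hj => hd k j k j' (by
        intro h'; exact hj (congrArg Prod.snd h')))).2)
  rw [Finset.prod_const, Finset.card_univ] at h
  refine le_trans (le_of_eq ?_) h
  congr 1
  funext a
  by_cases ha : ∀ k, HitF (W k) a
  · rw [if_pos ha]
    exact (Finset.prod_eq_one fun k _ => if_pos (ha k)).symm
  · rw [if_neg ha]
    push Not at ha
    obtain ⟨k, hk⟩ := ha
    exact (Finset.prod_eq_zero (mem_univ k) (if_neg hk)).symm

omit [DecidableEq κ] in
theorem cnt_zero (W : J → Finset I) {a : I → Bool} (h : ¬ HitF W a) : P3.cnt W a = 0 := by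
  classical
  unfold P3.cnt
  rw [Finset.card_eq_zero, Finset.filter_eq_empty_iff]
  intro j _ hj
  exact h ⟨j, hj⟩

/-- planting one window in a block without a full window -/
theorem cnt_plant (W : κ → J → Finset I)
    (hd : ∀ k j k' j', (k, j) ≠ (k', j') → Disjoint (W k j) (W k' j'))
    (b : Finset κ) (η : κ → J) (a : I → Bool) {k : κ} (hk : k ∈ b) (h : ¬ HitF (W k) a) :
    P3.cnt (W k) (pl (PS W b η) a) = 1 := by
  classical
  unfold P3.cnt
  rw [Finset.card_eq_one]
  refine ⟨η k, ?_⟩
  ext j
  rw [mem_filter, mem_singleton]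
  constructor
  · rintro ⟨_, hj⟩
    by_contra hne
    apply h
    refine ⟨j, fun i hi => ?_⟩
    have h1 := hj i hi
    unfold Pool.Agent.H622R2.Exp.pl at h1
    rw [if_neg] at h1
    · exact h1
    · rw [P3.mem_PS]
      rintro ⟨k', _, hi'⟩
      refine Finset.disjoint_left.1 (hd k j k' (η k') ?_) hi hi'
      intro h'
      have e1 := congrArg Prod.fst h'
      have e2 := congrArg Prod.snd h'
      simp only at e1 e2
      subst e1
      exact hne e2
  · rintro rfl
    refine ⟨mem_univ _, fun i hi => ?_⟩
    unfold Pool.Agent.H622R2.Exp.pl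
    rw [if_pos]
    rw [P3.mem_PS]
    exact ⟨k, hk, hi⟩

open Classical in
/-- Functions with small certificates for both values are right about the hits in all blocks only
with a probability which is exponentially small in the number of the blocks. -/
theorem det_many {m p : ℕ} (hm : 1 ≤ m)
    (hJ : Fintype.card J = 2 ^ m) (W : κ → J → Finset I) (hW : ∀ k j, (W k j).card = m)
    (hd : ∀ k j k' j', (k, j) ≠ (k', j') → Disjoint (W k j) (W k' j'))
    (g : κ → (I → Bool) → Bool)
    (hg : ∀ k a, ∃ A : Finset I, A.card ≤ p ∧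
      ∀ y : I → Bool, (∀ i ∈ A, y i = a i) → g k y = g k a)
    (hs : 2 * (Fintype.card κ * p) ≤ 2 ^ m) :
    Ex unif (fun a : I → Bool =>
      if ∀ k, (g k a = true ↔ HitF (W k) a) then (1 : ℝ) else 0) ≤
      2 * (3 / 4) ^ Fintype.card κ := by
  rcases isEmpty_or_nonempty κ with hκ | hκ
  · have h1 : ∀ a : I → Bool, (if ∀ k, (g k a = true ↔ HitF (W k) a) then (1 : ℝ) else 0) = 1 := by
      intro a
      rw [if_pos]
      intro k
      exact hκ.elim k
    rw [funext h1, Ex_const unif_sum]
    simp
  choose A hA hgA using hg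
  set K := Fintype.card κ with hK
  have hK1 : 1 ≤ K := Fintype.card_pos
  let E : (I → Bool) → Prop := fun a => ∀ k, (g k a = true ↔ HitF (W k) a)
  let G : Finset κ → (I → Bool) → ℝ := fun b a =>
    if (∀ k, HitF (W k) a) ∧ (∀ k, k ∈ b ↔ g k a = false) ∧ (∀ k ∈ b, P3.cnt (W k) a = 1)
    then 1 else 0
  have hG0 : ∀ b a, 0 ≤ G b a := fun b a => by simp only [G]; split_ifs <;> norm_num
  have hJ' : (Fintype.card J : ℝ) = 2 ^ m := by rw [hJ]; push_cast; ring
  let Q : (I → Bool) → Finset I := fun a => univ.biUnion fun k => A k a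
  have hQ : ∀ a, ((Q a).card : ℝ) ≤ K * p := by
    intro a
    have h1 : (Q a).card ≤ ∑ k : κ, (A k a).card := Finset.card_biUnion_le
    have h2 : ∑ k : κ, (A k a).card ≤ ∑ k : κ, p := Finset.sum_le_sum fun k _ => hA k a
    rw [Finset.sum_const, Finset.card_univ, smul_eq_mul] at h2
    exact_mod_cast h1.trans h2
  let bad : (κ → J) → (I → Bool) → ℝ := fun η a =>
    ∑ k, (if Disjoint (W k (η k)) (Q a) then (0 : ℝ) else 1)
  have hbad0 : ∀ η a, 0 ≤ bad η a := fun η a =>
    Finset.sum_nonneg fun k _ => by split_ifs <;> norm_num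
  -- the pointwise bound
  have s1 : ∀ η a, (if E a then (1 : ℝ) else 0) * (1 - bad η a) ≤
      ∑ b ∈ (univ : Finset κ).powerset, G b (pl (PS W b η) a) := by
    intro η a
    have h0 : 0 ≤ ∑ b ∈ (univ : Finset κ).powerset, G b (pl (PS W b η) a) :=
      Finset.sum_nonneg fun b _ => hG0 _ _
    by_cases hE : E a
    · rw [if_pos hE, one_mul]
      by_cases hb : ∃ k, ¬ Disjoint (W k (η k)) (Q a)
      · obtain ⟨k, hk⟩ := hb
        have h1 : 1 ≤ bad η a := by
          have h3 : (if Disjoint (W k (η k)) (Q a) then (0 : ℝ) else 1) = 1 := by rw [if_neg hk]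
          refine (le_of_eq h3.symm).trans ?_
          exact Finset.single_le_sum (f := fun k =>
            (if Disjoint (W k (η k)) (Q a) then (0 : ℝ) else 1))
            (fun k _ => by split_ifs <;> norm_num) (mem_univ k)
        linarith
      · push Not at hb
        set S : Finset κ := univ.filter fun k => ¬ HitF (W k) a with hS
        have hSmem : ∀ k, k ∈ S ↔ ¬ HitF (W k) a := by
          intro k
          rw [hS, mem_filter]
          simp
        have hq : ∀ k, g k (pl (PS W S η) a) = g k a := by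
          intro k
          refine hgA k a _ fun i hi => ?_
          unfold Pool.Agent.H622R2.Exp.pl
          rw [if_neg]
          rw [P3.mem_PS]
          rintro ⟨k', _, hi'⟩
          refine Finset.disjoint_left.1 (hb k') hi' ?_
          simp only [Q, mem_biUnion, mem_univ, true_and]
          exact ⟨k, hi⟩
        have h1 : G S (pl (PS W S η) a) = 1 := by
          simp only [G]
          rw [if_pos]
          refine ⟨fun k => ?_, fun k => ?_, fun k hk => ?_⟩
          · rw [P3.hit_pl W hd S η a k]
            by_cases h : HitF (W k) a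
            · exact Or.inr h
            · exact Or.inl ((hSmem k).2 h)
          · rw [hq k, hSmem k, ← hE k, Bool.not_eq_true]
          · exact cnt_plant W hd S η a hk ((hSmem k).1 hk)
        have h2 : 1 ≤ ∑ b ∈ (univ : Finset κ).powerset, G b (pl (PS W b η) a) := by
          rw [← h1]
          exact Finset.single_le_sum (f := fun b => G b (pl (PS W b η) a))
            (fun b _ => hG0 _ _) (Finset.mem_powerset.2 (Finset.subset_univ S))
        linarith [hbad0 η a]
    · rw [if_neg hE, zero_mul]
      exact h0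
  -- for fixed `a`, the average over `η`
  have hcard : (Fintype.card (κ → J) : ℝ) = 2 ^ (m * K) := by
    rw [Fintype.card_fun, hJ]
    push_cast
    rw [← pow_mul]
  have h7 : (2 : ℝ) ^ (m * K) = 2 ^ (m * (K - 1)) * 2 ^ m := by
    rw [← pow_add]
    congr 1
    obtain ⟨n, hn⟩ : ∃ n, K = n + 1 := ⟨K - 1, by omega⟩
    rw [hn, Nat.add_sub_cancel, Nat.mul_add, Nat.mul_one]
  have s2 : ∀ a, ∑ η : κ → J, bad η a ≤ 2 ^ (m * K) * (1 / 2) := by
    intro a
    simp only [bad]
    rw [Finset.sum_comm]
    have h3 : ∀ k : κ, ∑ η : κ → J, (if Disjoint (W k (η k)) (Q a) then (0 : ℝ) else 1) =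
        2 ^ (m * (K - 1)) * ∑ j, (if Disjoint (W k j) (Q a) then (0 : ℝ) else 1) := by
      intro k
      rw [P3.sum_pi_one k (fun j => (if Disjoint (W k j) (Q a) then (0 : ℝ) else 1)), hJ',
        ← pow_mul]
    rw [Finset.sum_congr rfl fun k _ => h3 k, ← Finset.mul_sum, h7, mul_assoc]
    refine mul_le_mul_of_nonneg_left ?_ (by positivity)
    refine ((P3.meet_card W hd (Q a)).trans (hQ a)).trans ?_
    have : (2 * ((K : ℝ) * p)) ≤ 2 ^ m := by exact_mod_cast hs
    linarith
  have s3 : Ex unif (fun a : I → Bool => (if E a then (1 : ℝ) else 0) * (2 ^ (m * K) * (1 / 2))) ≤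
      ∑ η : κ → J, Ex unif (fun a => ∑ b ∈ (univ : Finset κ).powerset, G b (pl (PS W b η) a)) := by
    rw [← Ex_sum]
    refine Ex_mono unif_nonneg fun a => ?_
    refine le_trans ?_ (Finset.sum_le_sum fun η _ => s1 η a)
    rw [← Finset.mul_sum]
    refine mul_le_mul_of_nonneg_left ?_ (by split_ifs <;> norm_num)
    rw [Finset.sum_sub_distrib, Finset.sum_const, Finset.card_univ, nsmul_eq_mul, hcard, mul_one]
    have := s2 a
    linarith
  have s4 : ∀ b ∈ (univ : Finset κ).powerset,
      ∑ η : κ → J, Ex unif (fun a => G b (pl (PS W b η) a)) = 2 ^ (m * K) * Ex unif (G b) := by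
    intro b _
    have hbK : b.card ≤ K := Finset.card_le_univ b
    rw [avg_plant W hW (fun t t' c c' h => hd t c t' c' (by
      intro h'; exact h (congrArg Prod.fst h'))) b (G b), hJ', ← pow_mul, ← pow_add,
      ← Nat.mul_add, Nat.sub_add_cancel hbK]
    congr 2
    funext a
    simp only [G]
    split_ifs with h
    · rw [one_mul]
      refine Finset.prod_eq_one fun k hk => ?_
      rw [P3.sum_ones1, h.2.2 k hk, Nat.cast_one]
    · rw [zero_mul]
  have s5 : ∑ η : κ → J, Ex unif (fun a => ∑ b ∈ (univ : Finset κ).powerset,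
      G b (pl (PS W b η) a)) ≤ 2 ^ (m * K) * (3 / 4) ^ K := by
    have e1 : ∑ η : κ → J, Ex unif (fun a => ∑ b ∈ (univ : Finset κ).powerset,
        G b (pl (PS W b η) a)) = 2 ^ (m * K) * Ex unif (fun a =>
          ∑ b ∈ (univ : Finset κ).powerset, G b a) := by
      simp only [Ex_sum]
      rw [Finset.sum_comm, Finset.sum_congr rfl s4, ← Finset.mul_sum]
    rw [e1]
    refine mul_le_mul_of_nonneg_left ?_ (by positivity)
    refine le_trans (Ex_mono unif_nonneg fun a => ?_) (all_hit hm hJ W hW hd)
    by_cases h : ∀ k, HitF (W k) a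
    · rw [if_pos h]
      set b₀ : Finset κ := univ.filter fun k => g k a = false with hb₀
      have h1 : ∀ b ∈ (univ : Finset κ).powerset, b ≠ b₀ → G b a = 0 := by
        intro b _ hb
        simp only [G]
        rw [if_neg]
        rintro ⟨_, h2, _⟩
        apply hb
        ext k
        rw [h2 k, hb₀, mem_filter]
        simp
      rw [Finset.sum_eq_single b₀ (fun b hb hne => h1 b hb hne)
        (fun hn => absurd (Finset.mem_powerset.2 (Finset.subset_univ _)) hn)]
      simp only [G]
      split_ifs <;> norm_num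
    · rw [if_neg h]
      refine le_of_eq (Finset.sum_eq_zero fun b _ => ?_)
      simp only [G]
      rw [if_neg fun h' => h h'.1]
  have s6 := s3.trans s5
  have s7 : Ex unif (fun a : I → Bool => (if E a then (1 : ℝ) else 0) * (2 ^ (m * K) * (1 / 2))) =
      (2 ^ (m * K) * (1 / 2)) * Ex unif (fun a : I → Bool => (if E a then (1 : ℝ) else 0)) := by
    rw [← Ex_smul]
    congr 1
    funext a
    ring
  rw [s7] at s6
  have h8 : (0 : ℝ) < 2 ^ (m * K) := by positivity
  have h9 : (2 : ℝ) ^ (m * K) * Ex unif (fun a : I → Bool => (if E a then (1 : ℝ) else 0)) ≤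
      2 ^ (m * K) * (2 * (3 / 4) ^ K) := by linarith
  exact le_of_mul_le_mul_left h9 h8

end

end Pool.Agent.TH771.BN
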